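import Pool.Agent.X237.MF.Fin

/-!
# Fields over the field of meromorphic functions on the plane

Let `Mero` be the field of meromorphic functions on `ℂ`. We show that `Mero` is not NIP, not `NIP_n`
for any `n` and not `NTP2`, and the same for every field of meromorphic functions on a nonempty open
set `U` of the plane which contains the restrictions of all elements of `Mero`, and more generally
for every field `K` with a homomorphism `Mero → K` for which infinitely many real numbers `a` are
odd points. (Thus also for the field of meromorphic functions on a noncompact connected Riemann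
surface, which has a nonconstant holomorphic function `h`: the homomorphism is `f ↦ f ∘ h`.)

The places of these fields at the points of the plane are discrete with residue field `ℂ`, so that
norms (starting results `FewBadPlaces`, `UnramifiedNorms`, `FunctionFields`, `NoetherianDomains`)
give no information.

Proof. Let `a₁ < ... < aₙ` be real numbers and let `S`, `T` be disjoint sets of indices. We
construct meromorphic functions `u`, `w` on `ℂ` with
`g w ^ 2 = (f u ^ 2 - α) ^ 2 - β`, `f = ∏ i ∈ S, (z - a i)`, `g = ∏ j ∈ T, (z - a j)`, where `α`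
and `β` are fixed constants. On the hyperelliptic curve `y ^ 2 = ∏ i, (z - a i)` we take the
integral `x` of a differential of the form `p(z) dz / y` such that the differences of the values of
`x` at the points over the `a i` are suitable half periods of a lattice, and then `u` and `w` are
expressed by the Weierstrass functions of `x`. (The values of `x` at these points can be prescribed
since the polynomial `p` is arbitrary.)
`NIPField`, `NIPnField`, `NTP2Field` are defined in `Pool.Agent.W882.Nip3.Defs`.
-/

set_option autoImplicit false

open Filter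

namespace Pool.Agent.Results.MP_3554b5_lc.EntireMeromorphicFunctions

open Pool.Agent.W882.Nip3

/-- The functions on `ℂ` which are meromorphic at every point. -/
def merFun : Subring (ℂ → ℂ) where
  carrier := {f | ∀ z, MeromorphicAt f z}
  mul_mem' := fun ha hb z => (ha z).mul (hb z)
  one_mem' := fun z => MeromorphicAt.const 1 z
  add_mem' := fun ha hb z => (ha z).add (hb z)
  zero_mem' := fun z => MeromorphicAt.const 0 z
  neg_mem' := fun ha z => (ha z).neg

/-- The field of meromorphic functions on `ℂ`: the functions which are meromorphic at every point,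
up to equality outside closed discrete subsets of `ℂ`. -/
noncomputable def Mero : Subring ((codiscreteWithin (Set.univ : Set ℂ)).Germ ℂ) :=
  merFun.map (Germ.coeRingHom (codiscreteWithin Set.univ))

/-- The constant function with value `c`. -/
noncomputable def const (c : ℂ) : Mero :=
  ⟨((fun _ => c : ℂ → ℂ) : (codiscreteWithin (Set.univ : Set ℂ)).Germ ℂ), fun _ => c,
    fun z => MeromorphicAt.const c z, rfl⟩

/-- The function `z`. -/
noncomputable def coord : Mero :=
  ⟨((fun z => z : ℂ → ℂ) : (codiscreteWithin (Set.univ : Set ℂ)).Germ ℂ), fun z => z,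
    fun z => MeromorphicAt.id z, rfl⟩

/-- `a` is an odd point of the homomorphism `τ : Mero → K`: there is a valuation of `K`, with values
in some ordered group, which is trivial on the image of `ℂ` and for which the value of `τ (z - a)`
is positive and not divisible by two (in the multiplicative notation of Mathlib: less than one and
not a square). -/
def OddAt {K : Type} [Field K] (τ : Mero →+* K) (a : ℂ) : Prop :=
  ∃ (Γ : Type) (_ : LinearOrderedCommGroupWithZero Γ) (v : Valuation K Γ),
    (∀ c : ℂ, c ≠ 0 → v (τ (const c)) = 1) ∧ v (τ coord - τ (const a)) < 1 ∧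
      ¬ IsSquare (v (τ coord - τ (const a)))

theorem exists_inj {α : Type} (s : Set α) (N : ℕ) (h : ¬ s.encard < N) :
    ∃ a : Fin N → α, Function.Injective a ∧ ∀ i, a i ∈ s := by
  classical
  rw [not_lt] at h
  obtain ⟨t, hts, ht⟩ := Set.exists_subset_encard_eq h
  have hfin : t.Finite := Set.finite_of_encard_eq_coe ht
  have hcard : hfin.toFinset.card = N := by
    rw [hfin.encard_eq_coe_toFinset_card] at ht
    exact_mod_cast ht
  let e := hfin.toFinset.equivFinOfCardEq hcard
  exact ⟨fun i => (e.symm i : α), fun i j hij => e.symm.injective (Subtype.ext hij),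
    fun i => hts (hfin.mem_toFinset.1 (e.symm i).2)⟩

/-- (1) Let `K` be a field which is NIP (the hypothesis of `S14569`), or `NIP_n` for some `n`, or
`NTP2`. There is `N`, depending only on the theory of `K`, such that for every field `K'`
elementarily equivalent to `K` and every homomorphism `τ` from the field of meromorphic functions on
`ℂ` to `K'` there are fewer than `N` real numbers `a` which are odd points of `τ`.

(2) Let `U` be a nonempty open subset of `ℂ` and let `K` be a field of meromorphic functions on `U`:
a field with a homomorphism to the ring of functions on `U` up to equality outside a discrete subset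
of `U`, such that all elements of the image are represented by meromorphic functions. If the image
contains the restrictions to `U` of all functions which are meromorphic on `ℂ`, then `K` is not NIP,
not `NIP_n` for any `n` and not `NTP2`.

(3) The ring of meromorphic functions on `ℂ` is a field, and this field is not NIP, not `NIP_n` for
any `n` and not `NTP2`. -/
theorem result :
    (∀ (K : Type) [Field K] [FirstOrder.Ring.CompatibleRing K],
      (NIPField K ∨ (∃ n, NIPnField n K) ∨ NTP2Field K) →
      ∃ N : ℕ, ∀ (K' : Type) [Field K'] [FirstOrder.Ring.CompatibleRing K'],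
        FirstOrder.Language.ring.ElementarilyEquivalent K K' →
        ∀ τ : Mero →+* K', {a : ℝ | OddAt τ (a : ℂ)}.encard < N) ∧
    (∀ (U : Set ℂ), IsOpen U → U.Nonempty →
      ∀ (K : Type) [Field K] [FirstOrder.Ring.CompatibleRing K]
        (ι : K →+* (codiscreteWithin U).Germ ℂ),
        (∀ x, ∃ f : ℂ → ℂ, MeromorphicOn f U ∧ ι x = (f : (codiscreteWithin U).Germ ℂ)) →
        (∀ f : ℂ → ℂ, (∀ z, MeromorphicAt f z) →
          ∃ y : K, ι y = (f : (codiscreteWithin U).Germ ℂ)) →
        ¬ (NIPField K ∨ (∃ n, NIPnField n K) ∨ NTP2Field K)) ∧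
    IsField Mero ∧
      ∀ (K : Type) [Field K] [FirstOrder.Ring.CompatibleRing K], Nonempty (K ≃+* Mero) →
        ¬ (NIPField K ∨ (∃ n, NIPnField n K) ∨ NTP2Field K) := by
  classical
  have h1 : ∀ (K : Type) [Field K] [FirstOrder.Ring.CompatibleRing K],
      (NIPField K ∨ (∃ n, NIPnField n K) ∨ NTP2Field K) →
      ∃ N : ℕ, ∀ (K' : Type) [Field K'] [FirstOrder.Ring.CompatibleRing K'],
        FirstOrder.Language.ring.ElementarilyEquivalent K K' →
        ∀ τ : Mero →+* K', {a : ℝ | OddAt τ (a : ℂ)}.encard < N := by
    intro K _ _ hK
    obtain ⟨N, hN⟩ := Pool.Agent.X237.MF.bound_of_tame hK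
    refine ⟨N, fun K' _ _ hKK' τ => ?_⟩
    by_contra hcon
    obtain ⟨a, ha, hv⟩ := exists_inj _ N hcon
    obtain ⟨D⟩ := Pool.Agent.X237.MF.data_of_mero τ a ha hv
    exact (hN K' hKK' (Fin N) (by rw [Fintype.card_fin])).false D
  have h2 : ∀ (U : Set ℂ), IsOpen U → U.Nonempty →
      ∀ (K : Type) [Field K] [FirstOrder.Ring.CompatibleRing K]
        (ι : K →+* (codiscreteWithin U).Germ ℂ),
        (∀ x, ∃ f : ℂ → ℂ, MeromorphicOn f U ∧ ι x = (f : (codiscreteWithin U).Germ ℂ)) →
        (∀ f : ℂ → ℂ, (∀ z, MeromorphicAt f z) →
          ∃ y : K, ι y = (f : (codiscreteWithin U).Germ ℂ)) →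
        ¬ (NIPField K ∨ (∃ n, NIPnField n K) ∨ NTP2Field K) := by
    intro U hU hne K _ _ ι hι hM hK
    obtain ⟨N, hN⟩ := h1 K hK
    obtain ⟨τ, hτ⟩ := Pool.Agent.X237.MF.exists_hom hU hne ι hι hM
    have h3 : {a : ℝ | OddAt τ (a : ℂ)}.encard < N := hN K (by rfl) τ
    have h4 : {a : ℝ | OddAt τ (a : ℂ)}.Infinite := hτ
    rw [h4.encard_eq] at h3
    exact absurd h3 (by simp)
  refine ⟨h1, h2, Pool.Agent.X237.MF.isField_mero, fun K _ _ ⟨e⟩ => ?_⟩
  refine h2 Set.univ isOpen_univ ⟨0, Set.mem_univ _⟩ K (Mero.subtype.comp e.toRingHom) ?_ ?_
  · intro x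
    obtain ⟨f, hf, hfx⟩ := (e x).2
    exact ⟨f, fun z _ => hf z, hfx.symm⟩
  · intro f hf
    refine ⟨e.symm ⟨(f : (codiscreteWithin (Set.univ : Set ℂ)).Germ ℂ), f, hf, rfl⟩, ?_⟩
    exact congrArg Subtype.val (e.apply_symm_apply _)

end Pool.Agent.Results.MP_3554b5_lc.EntireMeromorphicFunctions
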