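import Pool.Agent.X237.MF.RealPts

/-!
# Fields which are NIP, `NIP_n` or NTP2 have few odd points with a solvable elliptic relation

All results on this problem which use norms (`FewBadPlaces`, `UnramifiedNorms`, `FunctionFields`,
`NoetherianDomains`) say nothing about discrete valuations with an algebraically closed residue
field of characteristic zero, since all norm maps of their completions are surjective. Here such
valuations are treated with the twisted elliptic curves `g w ^ 2 = (f u ^ 2) ^ 2 - 1`: if this
equation has a solution in `K`, then `f` and `g` have no common odd point, that is, there is no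
valuation of `K` for which the values of `f` and `g` both are not divisible by two.

Examples (`K'` is not NIP, not `NIP_n` and not `NTP2`): `ℂ(x)` with all square roots of `x - c`, `c`
not in `ℤ`, and every larger field in which infinitely many integers `a` have a valuation which is
trivial on `ℂ` and for which `x - a` is a uniformiser, for example the largest algebraic extension
of `ℂ(x)` which is unramified over all integers; the field of fractions of the ring of complex
valued analytic functions on the real line.
`NIPField`, `NIPnField`, `NTP2Field` are defined in `Pool.Agent.W882.Nip3.Defs`.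
-/

set_option autoImplicit false

open Cardinal

namespace Pool.Agent.Results.MP_3554b5_lc.FewOddPoints

open Pool.Agent.W882.Nip3

/-- `a` is an odd point of `x`: there is a valuation of `K`, with values in some ordered group,
which is trivial on `k` and for which the value of `x - a` is positive and not divisible by two (in
the multiplicative notation of Mathlib: less than one and not a square). -/
def OddAt {k K : Type} [Field k] [Field K] [Algebra k K] (x : K) (a : k) : Prop :=
  ∃ (Γ : Type) (_ : LinearOrderedCommGroupWithZero Γ) (v : Valuation K Γ),
    (∀ c : k, c ≠ 0 → v (algebraMap k K c) = 1) ∧ v (x - algebraMap k K a) < 1 ∧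
      ¬ IsSquare (v (x - algebraMap k K a))

theorem exists_inj {α : Type} (s : Set α) (N : ℕ) (h : ¬ s.encard < N) :
    ∃ a : Fin N → α, Function.Injective a ∧ ∀ i, a i ∈ s := by
  classical
  rw [not_lt] at h
  obtain ⟨t, hts, ht⟩ := Set.exists_subset_encard_eq h
  have hfin : t.Finite := Set.finite_of_encard_eq_coe ht
  have hcard : hfin.toFinset.card = N := by
    rw [hfin.encard_eq_coe_toFinset_card] at ht
    exact_mod_cast ht
  let e := hfin.toFinset.equivFinOfCardEq hcard
  exact ⟨fun i => (e.symm i : α), fun i j hij => e.symm.injective (Subtype.ext hij),
    fun i => hts (hfin.mem_toFinset.1 (e.symm i).2)⟩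

/-- Let `K` be a field which is NIP (the hypothesis of `S14569`), or `NIP_n` for some `n`, or
`NTP2`. There is `N`, depending only on the theory of `K`, with the following property. Let `K'` be
a field elementarily equivalent to `K` (for example `K' = K`) and `x ∈ K'`.

(1) If `K'` contains an algebraically closed field `k` of characteristic not two and if the set of
all `c ∈ k` such that `x - c` is not a square in `K'` has a smaller cardinality than `k`, then there
are fewer than `N` points `a ∈ k` such that `a` is an odd point of `x`.

(2) If `K'` contains `ℂ` and `x - c` is a square in `K'` for all nonreal `c`, then there are fewer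
than `N` points `a ∈ ℂ` such that `a` is an odd point of `x`. -/
theorem result (K : Type) [Field K] [FirstOrder.Ring.CompatibleRing K]
    (hK : NIPField K ∨ (∃ n, NIPnField n K) ∨ NTP2Field K) :
    ∃ N : ℕ, ∀ (K' : Type) [Field K'] [FirstOrder.Ring.CompatibleRing K'],
      FirstOrder.Language.ring.ElementarilyEquivalent K K' →
      (∀ (k : Type) [Field k] [IsAlgClosed k] [Algebra k K'] (x : K'), (2 : k) ≠ 0 →
        #{c : k | ¬ IsSquare (x - algebraMap k K' c)} < #k → {a : k | OddAt x a}.encard < N) ∧
      (∀ [Algebra ℂ K'] (x : K'), (∀ c : ℂ, c.im ≠ 0 → IsSquare (x - algebraMap ℂ K' c)) →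
        {a : ℂ | OddAt x a}.encard < N) := by
  obtain ⟨N, hN⟩ := Pool.Agent.X237.MF.bound_of_tame hK
  refine ⟨N, fun K' _ _ hKK' => ⟨fun k _ _ _ x h2 hB => ?_, fun {_} x hB => ?_⟩⟩
  · by_contra hcon
    obtain ⟨a, ha, hv⟩ := exists_inj _ N hcon
    obtain ⟨D⟩ := Pool.Agent.X237.MF.data_of_small h2 x hB a ha hv
    exact (hN K' hKK' (Fin N) (by rw [Fintype.card_fin])).false D
  · by_contra hcon
    obtain ⟨a, ha, hv⟩ := exists_inj _ N hcon
    obtain ⟨D⟩ := Pool.Agent.X237.MF.data_of_real x hB a ha hv
    exact (hN K' hKK' (Fin N) (by rw [Fintype.card_fin])).false D

end Pool.Agent.Results.MP_3554b5_lc.FewOddPoints
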