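import Pool.Agent.X237.MF.Germ

/-!
# Fields of meromorphic functions on a half plane are not NIP, `NIP_n` or NTP2

Let `H` be the right half plane and let `K` be a field of meromorphic functions on `H` which
contains square roots of `z - c` for all `c` with `Re c < 0`, for example the field of all
meromorphic functions on `H`, the field of all algebraic functions which are meromorphic on `H`, or
the field generated by these square roots. Then the pure field `K` is not NIP, not `NIP_n` for any
`n` and not `NTP2`. All places of `K` at the points of `H` are discrete with residue field `ℂ`, so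
that norms (starting results `FewBadPlaces`, `UnramifiedNorms`, `FunctionFields`,
`NoetherianDomains`) give no information.

Proof. If the equation `g w ^ 2 = (f u ^ 2) ^ 2 - 1` of a twisted elliptic curve has a solution in
`K` then `f` and `g` have no common zero of odd order in `H`. Conversely for finitely many points
which are far apart in the hyperbolic metric (constructed with rational functions which map `H` to
a thin strip) this equation has solutions for all products `f`, `g` over disjoint sets.
`NIPField`, `NIPnField`, `NTP2Field` are defined in `Pool.Agent.W882.Nip3.Defs`.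
-/

set_option autoImplicit false

open Filter

namespace Pool.Agent.Results.MP_3554b5_lc.HalfPlane

open Pool.Agent.W882.Nip3

/-- `a` is an odd point of `x`: there is a valuation of `K`, with values in some ordered group,
which is trivial on `ℂ` and for which the value of `x - a` is positive and not divisible by two (in
the multiplicative notation of Mathlib: less than one and not a square). -/
def OddAt {K : Type} [Field K] [Algebra ℂ K] (x : K) (a : ℂ) : Prop :=
  ∃ (Γ : Type) (_ : LinearOrderedCommGroupWithZero Γ) (v : Valuation K Γ),
    (∀ c : ℂ, c ≠ 0 → v (algebraMap ℂ K c) = 1) ∧ v (x - algebraMap ℂ K a) < 1 ∧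
      ¬ IsSquare (v (x - algebraMap ℂ K a))

/-- The right half plane. -/
def H : Set ℂ := {z | 0 < z.re}

/-- (1) Let `K` be a field which is NIP (the hypothesis of `S14569`), or `NIP_n` for some `n`, or
`NTP2`. There is a finite set `P` of positive real numbers, depending only on the theory of `K`,
such that for every field `K'` elementarily equivalent to `K` which contains `ℂ` and every `x ∈ K'`
such that `x - c` is a square in `K'` for all complex numbers `c` with `Re c < 0`, some element of
`P` is not an odd point of `x`.

(2) Let `K` be a field of meromorphic functions on `H`: a field with a homomorphism to the ring of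
functions on `H` up to equality outside a discrete subset of `H`, such that all elements of the
image are represented by meromorphic functions. Suppose that for every `c` with `Re c < 0` there is
an element of `K` whose square is the function `z - c`. Then `K` is not NIP, not `NIP_n` for any `n`
and not `NTP2`. -/
theorem result :
    (∀ (K : Type) [Field K] [FirstOrder.Ring.CompatibleRing K],
      (NIPField K ∨ (∃ n, NIPnField n K) ∨ NTP2Field K) →
      ∃ P : Finset ℝ, (∀ p ∈ P, 0 < p) ∧
        ∀ (K' : Type) [Field K'] [FirstOrder.Ring.CompatibleRing K'] [Algebra ℂ K'] (x : K'),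
          FirstOrder.Language.ring.ElementarilyEquivalent K K' →
          (∀ c : ℂ, c.re < 0 → IsSquare (x - algebraMap ℂ K' c)) →
          ∃ p ∈ P, ¬ OddAt x ((p : ℝ) : ℂ)) ∧
    ∀ (K : Type) [Field K] [FirstOrder.Ring.CompatibleRing K]
      (ι : K →+* (codiscreteWithin H).Germ ℂ),
      (∀ x, ∃ f : ℂ → ℂ, MeromorphicOn f H ∧ ι x = (f : (codiscreteWithin H).Germ ℂ)) →
      (∀ c : ℂ, c.re < 0 → ∃ y : K,
        ι y ^ 2 = ((fun z => z - c : ℂ → ℂ) : (codiscreteWithin H).Germ ℂ)) →
      ¬ (NIPField K ∨ (∃ n, NIPnField n K) ∨ NTP2Field K) := by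
  classical
  have h1 : ∀ (K : Type) [Field K] [FirstOrder.Ring.CompatibleRing K],
      (NIPField K ∨ (∃ n, NIPnField n K) ∨ NTP2Field K) →
      ∃ P : Finset ℝ, (∀ p ∈ P, 0 < p) ∧
        ∀ (K' : Type) [Field K'] [FirstOrder.Ring.CompatibleRing K'] [Algebra ℂ K'] (x : K'),
          FirstOrder.Language.ring.ElementarilyEquivalent K K' →
          (∀ c : ℂ, c.re < 0 → IsSquare (x - algebraMap ℂ K' c)) →
          ∃ p ∈ P, ¬ OddAt x ((p : ℝ) : ℂ) := by
    intro K _ _ hK
    obtain ⟨N, hN⟩ := Pool.Agent.X237.MF.bound_of_tame hK
    obtain ⟨P, hP, hPd⟩ := Pool.Agent.X237.MF.data_of_half N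
    refine ⟨P, hP, fun K' _ _ _ x hKK' hsq => ?_⟩
    by_contra hcon
    push Not at hcon
    obtain ⟨D⟩ := hPd K' x hsq hcon
    exact (hN K' hKK' (Fin N) (by rw [Fintype.card_fin])).false D
  refine ⟨h1, fun K _ _ ι hι hsq hK => ?_⟩
  have hH : IsOpen H := isOpen_lt continuous_const Complex.continuous_re
  have h1H : (1 : ℂ) ∈ H := by
    change 0 < (1 : ℂ).re
    rw [Complex.one_re]
    exact one_pos
  obtain ⟨A, x, hA, hx, hsq'⟩ := Pool.Agent.X237.MF.exists_coord
    (Pool.Agent.X237.MF.neBot_codisc hH h1H) ι hsq
  let _ : Algebra ℂ K := A.toAlgebra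
  obtain ⟨P, hP, hPd⟩ := h1 K hK
  obtain ⟨p, hp, hodd⟩ := hPd K x (by rfl) hsq'
  apply hodd
  refine Pool.Agent.X237.MF.oddAt_coord hH ι hι x hx (fun c => hA c) (a := ((p : ℝ) : ℂ)) ?_
  change 0 < ((p : ℝ) : ℂ).re
  rw [Complex.ofReal_re]
  exact hP p hp

end Pool.Agent.Results.MP_3554b5_lc.HalfPlane
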