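import Mathlib
import Pool.Agent.X321.DH.Ring
import Pool.Agent.X321.DH.Hens
import Pool.Agent.X321.DH.Zeta
import Pool.Agent.X321.DH.Two
import Pool.Agent.Results.MP_600e55_nt.ManyRelations

set_option autoImplicit false

/-! # MP_3554b5_lc: definable henselian valuations of fields with many relations

Let `p` be a prime and `K` a field of characteristic different from `p` such that `K* / K*^p` is
finite, of dimension `d` over the field with `p` elements, let `r` be the dimension of `K₂(K)/p`,
and let `χ(K) = d - d (d - 1) / 2 + r`. Assume that `p` is odd or that `-1` is a square in `K`.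

If `χ(K) ≥ 2`, that is, `r > (d - 1) (d - 2) / 2`, then `K` has a nontrivial valuation ring which is
definable in the language of rings, and all its one-units are `p`-th powers. If the absolute Galois
group of `K` is a pro-p group, then this valuation ring is henselian, so the conclusion of Shelah's
conjecture holds for `K`, whether or not `K` is NIP. For `d ≥ 2` we also show a necessary and
sufficient condition for the existence of such a valuation ring. -/

namespace Pool.Agent.Results.MP_3554b5_lc.ManyRelations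

open Module Pool.Agent.X321.DH
open Pool.Agent.Results.MP_600e55_nt.ManyRelations

/-- `O` is definable with parameters in the language of rings -/
def IsDefinable {K : Type} [Field K] [FirstOrder.Ring.CompatibleRing K] (O : ValuationSubring K) :
    Prop :=
  ∃ (k : ℕ) (ψ : FirstOrder.Language.ring.Formula (Fin 1 ⊕ Fin k)) (c : Fin k → K),
    ∀ x : K, x ∈ O ↔ ψ.Realize (Sum.elim (fun _ => x) c)

/-- the absolute Galois group of `K` is a pro-p group: the degree of every finite Galois extension
is a power of `p` -/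
def HasProPGroup (p : ℕ) (K : Type) [Field K] : Prop :=
  ∀ L : IntermediateField K (AlgebraicClosure K), FiniteDimensional K L → IsGalois K L →
    ∃ k : ℕ, finrank K L = p ^ k

/-- `O` is `p`-henselian: `O` has only one extension to every finite Galois extension whose degree
is a power of `p` -/
def IsPHenselian (p : ℕ) {K : Type} [Field K] (O : ValuationSubring K) : Prop :=
  ∀ L : IntermediateField K (AlgebraicClosure K), FiniteDimensional K L → IsGalois K L →
    (∃ k : ℕ, finrank K L = p ^ k) → ∀ O₁ O₂ : ValuationSubring L,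
      O₁.comap (algebraMap K L) = O → O₂.comap (algebraMap K L) = O → O₁ = O₂

/-- `O` is henselian, `p` is a unit of `O`, and the value group is not `p`-divisible -/
def IsTame (p : ℕ) {K : Type} [Field K] (O : ValuationSubring K) : Prop :=
  HenselianLocalRing O ∧ (p : K)⁻¹ ∈ O ∧ O.unitGroup ⊔ powers p K ≠ ⊤

section

variable {p : ℕ} [Fact p.Prime] {K : Type} [Field K]

omit [Fact p.Prime] in
lemma ne_top {O : ValuationSubring K} (hO : O.unitGroup ⊔ powers p K ≠ ⊤) : O ≠ ⊤ := by
  rintro rfl
  apply hO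
  rw [eq_top_iff]
  intro x _
  refine (le_sup_left : (⊤ : ValuationSubring K).unitGroup ≤ _) ?_
  rw [ValuationSubring.mem_unitGroup_iff]
  apply le_antisymm
  · exact (ValuationSubring.valuation_le_one_iff _ _).2 trivial
  · have h3 := (ValuationSubring.valuation_le_one_iff (⊤ : ValuationSubring K) (x : K)⁻¹).2 trivial
    rw [map_inv₀] at h3
    have h4 : (⊤ : ValuationSubring K).valuation (x : K) ≠ 0 :=
      (Valuation.ne_zero_iff _).2 x.ne_zero
    exact (inv_le_one₀ (zero_lt_iff.2 h4)).1 h3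

/-- a definable coarsening of a good valuation ring -/
lemma exists_definable [FirstOrder.Ring.CompatibleRing K]
    (hfin : FiniteDimensional (ZMod p) (K1 p K)) (h : ∃ O : ValuationSubring K, Good p O) :
    ∃ O : ValuationSubring K, IsDefinable O ∧ Good p O := by
  obtain ⟨O, h1, h2, h3⟩ := h
  have hA : Finite (K1 p K) := Module.finite_of_finite (ZMod p)
  have hA' : Finite (Kˣ ⧸ pw p K) := hA
  obtain ⟨O', k, c, hle, hO', hu⟩ := exists_coarse h2
  obtain ⟨ψ, hψ⟩ := exists_formula p k c
  refine ⟨O', ⟨k, ψ, c, fun x => (hO' x).trans (hψ x)⟩, hle h1, ?_, ?_⟩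
  · intro x hx hx'
    have h4 : x⁻¹ ∉ O := fun h => hx' (hle h)
    exact h2 x ((O.mem_or_inv_mem x).resolve_right h4) h4
  · intro e
    apply h3
    rw [eq_top_iff, ← e]
    exact sup_le hu le_sup_right

/-- good valuation rings are `p`-henselian -/
lemma isPHenselian (hpK : (p : K) ≠ 0) (hζ : ∃ ζ : K, IsPrimitiveRoot ζ p)
    {O : ValuationSubring K} (hO : Good p O) : IsPHenselian p O := by
  rintro L hLf hLg ⟨k, hk⟩ O₁ O₂ h1 h2
  have hp : p.Prime := Fact.out
  by_cases hp2 : p = 2
  · subst hp2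
    have h3 : Pool.Agent.Y920.ETC.Sqr O := ⟨by exact_mod_cast hO.1, by exact_mod_cast hpK, by
      intro x hx hx'
      obtain ⟨y, hy⟩ := hO.2.1 x hx hx'
      exact ⟨y, by rw [← hy, pow_two]⟩⟩
    exact Pool.Agent.Y210.ET.t_TOWER Pool.Agent.Y888.ET.t_QUAD k K L hk O h3 _ _ h1 h2
  · exact Pool.Agent.Y925.EP.t_TOWER' Pool.Agent.Y86.EP.t_KUM Pool.Agent.Y279.EP.t_UP p hp hp2 k K
      L hζ hk O ⟨hO.1, hpK, hO.2.1⟩ _ _ h1 h2

lemma henselian (hpK : (p : K) ≠ 0) (hK : HasProPGroup p K) {O : ValuationSubring K}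
    (hO : Good p O) : HenselianLocalRing O :=
  hensel O fun L hLf hLg => isPHenselian hpK (exists_zeta Fact.out hpK hK) hO L hLf hLg
    (hK L hLf hLg)

open Polynomial in
/-- the one-units of a tame valuation ring are `p`-th powers -/
lemma good_of_tame (hpK : (p : K) ≠ 0) {O : ValuationSubring K} (hO : IsTame p O) : Good p O := by
  obtain ⟨h1, h2, h3⟩ := hO
  refine ⟨h2, ?_, h3⟩
  intro x hx hx'
  have hp : p.Prime := Fact.out
  set y : O := ⟨x, hx⟩ with hy
  have hy' : y ∈ IsLocalRing.maximalIdeal O := by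
    rw [IsLocalRing.mem_maximalIdeal, mem_nonunits_iff]
    intro h
    obtain ⟨z, hz⟩ := h.exists_right_inv
    have hz' : x * (z : K) = 1 := congrArg Subtype.val hz
    rw [← eq_inv_of_mul_eq_one_right hz'] at hx'
    exact hx' z.2
  have hpu : IsUnit ((p : ℕ) : O) := by
    refine IsUnit.of_mul_eq_one ⟨(p : K)⁻¹, h2⟩ (Subtype.ext ?_)
    have : (((p : ℕ) : O) : K) = (p : K) := map_natCast O.subtype p
    change (((p : ℕ) : O) : K) * (p : K)⁻¹ = 1
    rw [this, mul_inv_cancel₀ hpK]
  obtain ⟨a, ha, -⟩ := h1.is_henselian (X ^ p - C (1 + y)) (monic_X_pow_sub_C _ hp.ne_zero) 1 (by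
    rw [eval_sub, eval_pow, eval_X, eval_C, one_pow, sub_add_cancel_left]
    exact neg_mem hy') (by
    rw [derivative_sub, derivative_X_pow, derivative_C, sub_zero, eval_mul, eval_pow, eval_X,
      one_pow, mul_one, eval_C]
    exact hpu)
  rw [IsRoot, eval_sub, eval_pow, eval_X, eval_C, sub_eq_zero] at ha
  exact ⟨(a : K), by
    have := congrArg (fun z : O => (z : K)) ha
    exact this⟩

/-- the necessary condition -/
lemma necessary (hneg : p ≠ 2 ∨ IsSquare (-1 : K)) (hfin : FiniteDimensional (ZMod p) (K1 p K))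
    (h : ∃ O : ValuationSubring K, Good p O)
    (hpair : HasPair (⊤ : Submodule (ZMod p) (K1 p K))) : HasSmallSubspace p K := by
  obtain ⟨O, hO⟩ := h
  rw [hasPair_iff] at hpair
  obtain ⟨x, y, h1, h2, -, -⟩ := hpair
  obtain ⟨c, hc⟩ : ∃ c : Kˣ, c ∉ O.unitGroup ⊔ powers p K := by
    by_contra hc
    push Not at hc
    exact hO.2.2 (by rw [eq_top_iff]; exact fun c _ => hc c)
  obtain ⟨X, h3, h4⟩ := Pool.Agent.X321.MR.exists_X (cls (p := p) hneg) cl_zero ⟨x, y, h1, h2⟩ O
    hO.2.1 c (by
      rintro u f hu rfl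
      exact hc (Subgroup.mul_mem_sup hu ⟨f, rfl⟩))
  rw [dl_eq hneg hfin, dl_top hneg hfin] at h4
  exact ⟨X, (hasPair_iff X).2 h3, h4⟩

end

theorem result (p : ℕ) [Fact p.Prime] (K : Type) [Field K] [FirstOrder.Ring.CompatibleRing K]
    (hpK : (p : K) ≠ 0) (hfin : FiniteDimensional (ZMod p) (K1 p K)) :
    -- fields with many relations
    (4 ≤ chiField p K ∨
        ((p ≠ 2 ∨ IsSquare (-1 : K)) ∧ (2 ≤ chiField p K ∨ HasSmallSubspace p K)) →
      ∃ O : ValuationSubring K, O ≠ ⊤ ∧ IsDefinable O ∧ Good p O ∧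
        ((∃ ζ : K, IsPrimitiveRoot ζ p) → IsPHenselian p O) ∧
        (HasProPGroup p K → HenselianLocalRing O)) ∧
    -- a criterion
    ((p ≠ 2 ∨ IsSquare (-1 : K)) → 2 ≤ finrank (ZMod p) (K1 p K) →
      ((∃ O : ValuationSubring K, Good p O) ↔
        (HasPair (⊤ : Submodule (ZMod p) (K1 p K)) → HasSmallSubspace p K)) ∧
      ((∃ O : ValuationSubring K, Good p O) → ∃ O : ValuationSubring K, IsDefinable O ∧ Good p O) ∧
      (HasProPGroup p K →
        ((∃ O : ValuationSubring K, IsTame p O) ↔
          (HasPair (⊤ : Submodule (ZMod p) (K1 p K)) → HasSmallSubspace p K)) ∧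
        ((∃ O : ValuationSubring K, IsTame p O) →
          ∃ O : ValuationSubring K, IsDefinable O ∧ IsTame p O))) := by
  have hgood : (p ≠ 2 ∨ IsSquare (-1 : K)) → 2 ≤ finrank (ZMod p) (K1 p K) →
      ((∃ O : ValuationSubring K, Good p O) ↔
        (HasPair (⊤ : Submodule (ZMod p) (K1 p K)) → HasSmallSubspace p K)) := by
    intro hneg hd
    refine ⟨necessary hneg hfin, fun h => exists_good hpK hneg hfin ?_⟩
    by_cases hpair : HasPair (⊤ : Submodule (ZMod p) (K1 p K))
    · exact Or.inr (Or.inl (h hpair))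
    · exact Or.inr (Or.inr ⟨hd, hpair⟩)
  refine ⟨fun h => ?_, fun hneg hd => ⟨hgood hneg hd, exists_definable hfin, fun hK => ?_⟩⟩
  · obtain ⟨O, h1, h2⟩ := exists_definable hfin (by
      by_cases hneg : p ≠ 2 ∨ IsSquare (-1 : K)
      · refine exists_good hpK hneg hfin ?_
        rcases h with h | ⟨-, h | h⟩
        · exact Or.inl (by omega)
        · exact Or.inl h
        · exact Or.inr (Or.inl h)
      · have h' := h.resolve_right (fun h => hneg h.1)
        rw [not_or, not_not] at hneg
        obtain ⟨rfl, hneg⟩ := hneg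
        exact exists_good_two (by exact_mod_cast hpK) hneg hfin h')
    exact ⟨O, ne_top h2.2.2, h1, h2, fun hζ => isPHenselian hpK hζ h2, fun hK =>
      henselian hpK hK h2⟩
  · rw [← hgood hneg hd]
    refine ⟨⟨fun ⟨O, hO⟩ => ⟨O, good_of_tame hpK hO⟩, fun ⟨O, hO⟩ =>
      ⟨O, henselian hpK hK hO, hO.1, hO.2.2⟩⟩, fun ⟨O, hO⟩ => ?_⟩
    obtain ⟨O', h1, h2⟩ := exists_definable hfin ⟨O, good_of_tame hpK hO⟩
    exact ⟨O', h1, henselian hpK hK h2, h2.1, h2.2.2⟩

end Pool.Agent.Results.MP_3554b5_lc.ManyRelations
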